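import Pool.Agent.Helper65.RP.Defs
import Pool.Agent.Helper36.Krull

/-!
# Coordinates of the shifted orbit are algebraic over one transcendental coordinate
-/

set_option autoImplicit false

namespace Pool.Agent.Helper35.RP

open Pool.Agent.Helper65.RP MvPolynomial Filter Topology

/-- The transcendence degree of a domain of finite type of Krull dimension at most one. -/
lemma trdeg_le_one {k D : Type} [Field k] [CommRing D] [IsDomain D] [Algebra k D]
    [Algebra.FiniteType k D] (hdim : ringKrullDim D ≤ 1) : Algebra.trdeg k D ≤ 1 := by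
  obtain ⟨s, g, hginj, hgint⟩ := exists_integral_inj_algHom_of_fg k D
  let _ : Algebra (MvPolynomial (Fin s) k) D := g.toRingHom.toAlgebra
  have hmap : algebraMap (MvPolynomial (Fin s) k) D = g.toRingHom := rfl
  have : IsScalarTower k (MvPolynomial (Fin s) k) D := by
    apply IsScalarTower.of_algebraMap_eq
    intro x
    rw [hmap]
    exact (g.commutes x).symm
  have : FaithfulSMul (MvPolynomial (Fin s) k) D := by
    rw [faithfulSMul_iff_algebraMap_injective]
    exact hginj
  have hint : Algebra.IsIntegral (MvPolynomial (Fin s) k) D := ⟨hgint⟩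
  have h1 : ringKrullDim (MvPolynomial (Fin s) k) ≤ ringKrullDim D :=
    Helper36.ringKrullDim_le_of_integral
  rw [MvPolynomial.ringKrullDim_of_isNoetherianRing, ringKrullDim_eq_zero_of_field, zero_add,
    Nat.card_fin] at h1
  have hs : s ≤ 1 := by
    have := h1.trans hdim
    exact_mod_cast this
  have h3 : Algebra.trdeg k (MvPolynomial (Fin s) k) + Algebra.trdeg (MvPolynomial (Fin s) k) D =
      Algebra.trdeg k D := trdeg_add_eq k (MvPolynomial (Fin s) k)
  have h4 : Algebra.trdeg (MvPolynomial (Fin s) k) D = 0 := trdeg_eq_zero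
  rw [h4, add_zero, MvPolynomial.trdeg_of_isDomain] at h3
  rw [← h3]
  simp only [Cardinal.mk_fintype, Fintype.card_fin, Cardinal.lift_natCast]
  exact_mod_cast hs

section abs
variable {K E : Type} [Field K] [Field E] [Algebra K E] {N : ℕ}

lemma trdeg_adjoin_le (z : Fin N → E)
    (hdim : ringKrullDim (MvPolynomial (Fin N) K ⧸
      RingHom.ker (aeval z : MvPolynomial (Fin N) K →ₐ[K] E)) ≤ 1) :
    Algebra.trdeg K (aeval z : MvPolynomial (Fin N) K →ₐ[K] E).range ≤ 1 := by
  have e : (MvPolynomial (Fin N) K ⧸ RingHom.ker (aeval z : MvPolynomial (Fin N) K →ₐ[K] E)) ≃ₐ[K]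
      (aeval z : MvPolynomial (Fin N) K →ₐ[K] E).range :=
    Ideal.quotientKerEquivRange _
  have h1 : ringKrullDim (aeval z : MvPolynomial (Fin N) K →ₐ[K] E).range ≤ 1 :=
    (ringKrullDim_eq_of_ringEquiv e.toRingEquiv).symm.le.trans hdim
  have : Algebra.FiniteType K (aeval z : MvPolynomial (Fin N) K →ₐ[K] E).range :=
    Algebra.FiniteType.of_surjective (aeval z : MvPolynomial (Fin N) K →ₐ[K] E).rangeRestrict
      (AlgHom.rangeRestrict_surjective _)
  exact trdeg_le_one h1

/-- In an algebra of transcendence degree at most one every element is algebraic over one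
transcendental element. -/
lemma exists_rel {C : Type} [CommRing C] [IsDomain C] [Algebra K C] (hC : Algebra.trdeg K C ≤ 1)
    (x y : C) (hy : Transcendental K y) :
    ∃ R : Polynomial (Polynomial K), R ≠ 0 ∧
      R.eval₂ (Polynomial.eval₂RingHom (algebraMap K C) y) x = 0 := by
  let _ : Algebra (Polynomial K) C := (Polynomial.aeval y : Polynomial K →ₐ[K] C).toRingHom.toAlgebra
  have hmap : algebraMap (Polynomial K) C =
    (Polynomial.aeval y : Polynomial K →ₐ[K] C).toRingHom := rfl
  have : IsScalarTower K (Polynomial K) C := by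
    apply IsScalarTower.of_algebraMap_eq
    intro x
    rw [hmap]
    exact ((Polynomial.aeval y : Polynomial K →ₐ[K] C).commutes x).symm
  have : FaithfulSMul (Polynomial K) C := by
    rw [faithfulSMul_iff_algebraMap_injective]
    exact transcendental_iff_injective.1 hy
  have h3 : Algebra.trdeg K (Polynomial K) + Algebra.trdeg (Polynomial K) C = Algebra.trdeg K C :=
    trdeg_add_eq K (Polynomial K)
  rw [Polynomial.trdeg_of_isDomain] at h3
  have h4 : Algebra.trdeg (Polynomial K) C = 0 := by
    by_contra h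
    have h5 : (1 : Cardinal) ≤ Algebra.trdeg (Polynomial K) C := Cardinal.one_le_iff_ne_zero.2 h
    have h6 : (1 : Cardinal) + 1 ≤ 1 := by
      calc (1 : Cardinal) + 1 ≤ 1 + Algebra.trdeg (Polynomial K) C := by gcongr
        _ ≤ 1 := by rw [h3]; exact hC
    norm_num at h6
  have h5 : Algebra.IsAlgebraic (Polynomial K) C := trdeg_eq_zero_iff.1 h4
  obtain ⟨R, hR, hR0⟩ := h5.isAlgebraic x
  refine ⟨R, hR, ?_⟩
  rw [Polynomial.aeval_def, hmap] at hR0
  exact hR0

end abs

section germ
variable {K E : Type} [Field K] [Field E] [Algebra K E] {N : ℕ}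

lemma aeval_germ (π : (ℕ → K) →+* E) (hπ : ∀ c : K, π (fun _ => c) = algebraMap K E c)
    (w : ℕ → Fin N → K) (F : MvPolynomial (Fin N) K) :
    aeval (fun i => π (fun n => w n i)) F = π (fun n => eval (w n) F) := by
  induction F using MvPolynomial.induction_on with
  | C a =>
    simp only [aeval_C, eval_C]
    exact (hπ a).symm
  | add p q hp hq =>
    rw [map_add, hp, hq, ← map_add]
    congr 1
    funext n
    simp
  | mul_X p i hp =>
    rw [map_mul, hp, aeval_X, ← map_mul]
    congr 1
    funext n
    simp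

lemma eval_germ (π : (ℕ → K) →+* E) (hπ : ∀ c : K, π (fun _ => c) = algebraMap K E c)
    (u v : ℕ → K) (R : Polynomial (Polynomial K)) :
    R.eval₂ (Polynomial.eval₂RingHom (algebraMap K E) (π u)) (π v) =
      π (fun n => (R.map (Polynomial.evalRingHom (u n))).eval (v n)) := by
  have key1 : ∀ p : Polynomial K, Polynomial.eval₂ (algebraMap K E) (π u) p =
      π (fun n => p.eval (u n)) := by
    intro p
    induction p using Polynomial.induction_on' with
    | add p q hp hq =>
      rw [Polynomial.eval₂_add, hp, hq, ← map_add]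
      congr 1
      funext n
      simp
    | monomial k c =>
      rw [Polynomial.eval₂_monomial, ← hπ, ← map_pow, ← map_mul]
      congr 1
      funext n
      simp
  induction R using Polynomial.induction_on' with
  | add p q hp hq =>
    rw [Polynomial.eval₂_add, hp, hq, ← map_add]
    congr 1
    funext n
    simp
  | monomial k c =>
    rw [Polynomial.eval₂_monomial, Polynomial.coe_eval₂RingHom, key1, ← map_pow, ← map_mul]
    congr 1
    funext n
    simp

end germ

/-- The field of germs. -/
lemma exists_ultra (𝒰 : Ultrafilter ℕ) (K : Type) [Field K] :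
    ∃ (E : Type) (_ : Field E) (π : (ℕ → K) →+* E), ∀ u, π u = 0 ↔
      ∀ᶠ n in (𝒰 : Filter ℕ), u n = 0 := by
  refine ⟨Germ (𝒰 : Filter ℕ) K, inferInstance, Germ.coeRingHom _, fun u => ?_⟩
  exact Germ.coe_eq

theorem alg_dep {K : Type} [Field K] {N : ℕ} {f : Fin N → MvPolynomial (Fin N) K}
    {𝒰 : Ultrafilter ℕ} (h𝒰 : (𝒰 : Filter ℕ) ≤ atTop) (a : Fin N → K)
    (hdim : ringKrullDim (MvPolynomial (Fin N) K ⧸ van 𝒰 (orb f a)) ≤ 1)
    (hint : ∀ i, ∃ R : Polynomial (MvPolynomial (Fin N) K), R.Monic ∧
      (R.map ((bind₁ f : MvPolynomial (Fin N) K →ₐ[K] MvPolynomial (Fin N) K) :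
        MvPolynomial (Fin N) K →+* MvPolynomial (Fin N) K)).eval (X i) = 0)
    (m : ℕ) (i₀ i : Fin N)
    (htr : ∀ p : Polynomial K, p ≠ 0 → ∀ᶠ n in (𝒰 : Filter ℕ), p.eval (orb f a (n - m) i₀) ≠ 0) :
    ∃ R : Polynomial (Polynomial K), R ≠ 0 ∧ ∀ᶠ n in (𝒰 : Filter ℕ),
      (R.map (Polynomial.evalRingHom (orb f a (n - m) i₀))).eval (orb f a (n - m) i) = 0 := by
  obtain ⟨E, hE, π, hπ0⟩ := exists_ultra 𝒰 K
  let _ : Algebra K E := (π.comp (Pi.constRingHom ℕ K)).toAlgebra
  have hπ : ∀ c : K, π (fun _ => c) = algebraMap K E c := fun c => rfl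
  have hπeq : ∀ u v : ℕ → K, (∀ᶠ n in (𝒰 : Filter ℕ), u n = v n) → π u = π v := by
    intro u v h
    rw [← sub_eq_zero, ← map_sub, hπ0]
    filter_upwards [h] with n hn
    simp [hn]
  set z : ℕ → Fin N → E := fun m i => π (fun n => orb f a (n - m) i) with hz
  -- the base case
  have hker : RingHom.ker (aeval (z 0) : MvPolynomial (Fin N) K →ₐ[K] E) = van 𝒰 (orb f a) := by
    ext F
    rw [RingHom.mem_ker]
    have h1 : aeval (z 0) F = π (fun n => eval (orb f a (n - 0)) F) :=
      aeval_germ π hπ (fun n => orb f a (n - 0)) F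
    rw [h1, hπ0]
    rfl
  have h0 : Algebra.trdeg K (aeval (z 0) : MvPolynomial (Fin N) K →ₐ[K] E).range ≤ 1 :=
    trdeg_adjoin_le (z 0) (hker ▸ hdim)
  set S := (aeval (z 0) : MvPolynomial (Fin N) K →ₐ[K] E).range with hS
  -- the algebraic closure of the coordinate ring
  set C := Subalgebra.algebraicClosure S E with hC
  have hCt : Algebra.trdeg K C ≤ 1 := by
    have h3 : Algebra.trdeg K S + Algebra.trdeg S C = Algebra.trdeg K C := trdeg_add_eq K S
    have h4 : Algebra.trdeg S C = 0 := trdeg_eq_zero
    rw [← h3, h4, add_zero]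
    exact h0
  -- recursion of the coordinates
  have hrec : ∀ m i, z m i = aeval (z (m + 1)) (f i) := by
    intro m i
    have h1 : aeval (z (m + 1)) (f i) = π (fun n => eval (orb f a (n - (m + 1))) (f i)) :=
      aeval_germ π hπ (fun n => orb f a (n - (m + 1))) (f i)
    rw [h1]
    apply hπeq
    filter_upwards [h𝒰 (eventually_ge_atTop (m + 1))] with n hn
    obtain ⟨k, rfl⟩ := Nat.exists_eq_add_of_le hn
    have e1 : m + 1 + k - m = k + 1 := by omega
    have e2 : m + 1 + k - (m + 1) = k := by omega
    rw [e1, e2]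
    unfold orb
    rw [Function.iterate_succ_apply']
  have hmem : ∀ m i, z m i ∈ C := by
    intro m
    induction m with
    | zero =>
      intro i
      have h1 : z 0 i ∈ S := ⟨X i, by simp⟩
      exact isAlgebraic_algebraMap (A := E) (⟨z 0 i, h1⟩ : S)
    | succ m ih =>
      intro i
      obtain ⟨R, hR, hR0⟩ := hint i
      set zc : Fin N → C := fun i => ⟨z m i, ih i⟩ with hzc
      -- `C` as a `K`-algebra
      have hcomp : ∀ F : MvPolynomial (Fin N) K,
          algebraMap C E (aeval zc F) = aeval (z m) F := by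
        intro F
        exact (MvPolynomial.aeval_algebraMap_apply E zc F).symm
      have hroot : (R.map ((aeval (z m) : MvPolynomial (Fin N) K →ₐ[K] E) :
          MvPolynomial (Fin N) K →+* E)).eval (z (m + 1) i) = 0 := by
        have h1 := congrArg (aeval (z (m + 1))) hR0
        rw [map_zero, ← Polynomial.eval₂_id, Polynomial.eval₂_map] at h1
        have h2 := Polynomial.hom_eval₂ R ((RingHom.id _).comp
          ((bind₁ f : MvPolynomial (Fin N) K →ₐ[K] MvPolynomial (Fin N) K) :
          MvPolynomial (Fin N) K →+* MvPolynomial (Fin N) K))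
          ((aeval (z (m + 1)) : MvPolynomial (Fin N) K →ₐ[K] E) : MvPolynomial (Fin N) K →+* E) (X i)
        have h3 : ((aeval (z (m + 1)) : MvPolynomial (Fin N) K →ₐ[K] E) :
            MvPolynomial (Fin N) K →+* E).comp ((RingHom.id _).comp
          ((bind₁ f : MvPolynomial (Fin N) K →ₐ[K] MvPolynomial (Fin N) K) :
          MvPolynomial (Fin N) K →+* MvPolynomial (Fin N) K)) =
            ((aeval (z m) : MvPolynomial (Fin N) K →ₐ[K] E) : MvPolynomial (Fin N) K →+* E) := by
          apply MvPolynomial.ringHom_ext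
          · intro c
            simp
          · intro j
            simp [hrec m j]
        rw [h3] at h2
        rw [Polynomial.eval_map]
        rw [← h1]
        have h4 : ((aeval (z (m + 1)) : MvPolynomial (Fin N) K →ₐ[K] E) :
            MvPolynomial (Fin N) K →+* E) (X i) = z (m + 1) i := by simp
        rw [h4] at h2
        exact h2.symm
      have hi : IsIntegral C (z (m + 1) i) := by
        refine ⟨R.map ((aeval zc : MvPolynomial (Fin N) K →ₐ[K] C) :
          MvPolynomial (Fin N) K →+* C), hR.map _, ?_⟩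
        rw [Polynomial.eval₂_map]
        rw [Polynomial.eval_map] at hroot
        rw [← hroot]
        have hh : (algebraMap C E).comp ((aeval zc : MvPolynomial (Fin N) K →ₐ[K] C) :
            MvPolynomial (Fin N) K →+* C) = ((aeval (z m) : MvPolynomial (Fin N) K →ₐ[K] E) :
            MvPolynomial (Fin N) K →+* E) := RingHom.ext hcomp
        rw [hh, Polynomial.eval₂_eq_eval_map, ← Polynomial.eval₂_eq_eval_map]
      exact IsAlgebraic.restrictScalars S hi.isAlgebraic
  -- conclusion
  have hy : Transcendental K (⟨z m i₀, hmem m i₀⟩ : C) := by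
    rw [transcendental_iff]
    intro p hp
    by_contra hne
    have h1 := htr p hne
    have h2 : Polynomial.aeval (z m i₀) p = 0 := by
      have h3 := congrArg (algebraMap C E) hp
      rw [map_zero, ← Polynomial.aeval_algebraMap_apply] at h3
      exact h3
    have h4 : Polynomial.aeval (z m i₀) p = π (fun n => p.eval (orb f a (n - m) i₀)) := by
      have h5 := eval_germ π hπ (fun n => orb f a (n - m) i₀) (fun n => orb f a (n - m) i₀)
        (Polynomial.C p)
      simp only [Polynomial.eval₂_C, Polynomial.map_C, Polynomial.eval_C] at h5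
      exact h5
    rw [h4, hπ0] at h2
    obtain ⟨n, hn1, hn2⟩ := (h1.and h2).exists
    exact hn1 hn2
  obtain ⟨R, hR, hR0⟩ := exists_rel hCt (⟨z m i, hmem m i⟩ : C) (⟨z m i₀, hmem m i₀⟩ : C) hy
  refine ⟨R, hR, ?_⟩
  have h1 : R.eval₂ (Polynomial.eval₂RingHom (algebraMap K E) (z m i₀)) (z m i) = 0 := by
    have h2 := congrArg (algebraMap C E) hR0
    rw [map_zero, Polynomial.hom_eval₂] at h2
    rw [← h2]
    congr 1
    apply Polynomial.ringHom_ext
    · intro c
      simp only [Polynomial.coe_eval₂RingHom, Polynomial.eval₂_C, RingHom.comp_apply]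
      rfl
    · simp only [Polynomial.coe_eval₂RingHom, Polynomial.eval₂_X, RingHom.comp_apply]
      rfl
  rw [hz] at h1
  simp only at h1
  rw [eval_germ π hπ, hπ0] at h1
  exact h1

end Pool.Agent.Helper35.RP
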